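import Pool.Agent.K7.H3.ZN.Family
import Pool.Agent.K7.H3.ZC.Inter

/-!
# The theorems in terms of closed subsets
-/

set_option autoImplicit false

open MvPolynomial FF
open scoped LinearAlgebra.Projectivization

namespace Pool.Agent.K7.H3.ZN

open Pool.Agent.K7.H3.ZC (IsVariety Spz spz_one exists_point multiHomogeneous_rename
  aeval_rep_eq_zero exists_chart tt tt_univ cycle cyM cyM_add cyM_map exists_diff exists_fin_map
  riemann_cycles ratEquiv IsFiniteDimensional)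

variable {k : Type} [Field k] {r : ℕ}

theorem varData {X : Set (ℙ k (Fin (r + 1) → k))} {n : ℕ}
    (hX : IsVariety k {z : Fin 1 → ℙ k (Fin (r + 1) → k) | z 0 ∈ X} n) :
    ∃ (K0 : Type) (_ : Field K0) (_ : Algebra k K0) (θ : Fin 1 → Fin (r + 1) → K0),
      VarData k X K0 θ n := by
  obtain ⟨K0, _, _, θ, -, hgen, htr, hXθ⟩ := hX
  exact ⟨K0, inferInstance, inferInstance, θ, hgen, htr, fun x => hXθ (fun _ => x)⟩

/-- If all points over `k` of a closed subset are in `X`, then also the coordinates of the generic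
point are points of `X`. -/
theorem VarData.spz_of_forall [IsAlgClosed k] {X : Set (ℙ k (Fin (r + 1) → k))} {K0 : Type}
    [Field K0] [Algebra k K0] {θ : Fin 1 → Fin (r + 1) → K0} {n : ℕ} (hX : VarData k X K0 θ n)
    {K : Type} [Field K] [Algebra k K] {ι : Type} [Fintype ι] {ξ : ι → Fin (r + 1) → K}
    (hξ : ∀ i, ξ i ≠ 0)
    (hsub : ∀ (v : ι → Fin (r + 1) → k) (hv : ∀ i, v i ≠ 0), Spz k ξ v →
      ∀ i, Projectivization.mk k (v i) (hv i) ∈ X) (i : ι) : Spz k θ (fun _ => ξ i) := by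
  classical
  rw [spz_one]
  intro g d hg h0
  by_contra hne
  obtain ⟨v, hv, hv1, hv2⟩ := exists_point hξ (multiHomogeneous_rename i hg) (by
    rw [aeval_rename]; exact hne)
  rw [aeval_rename] at hv2
  apply hv2
  have h3 := (hX.mem _).1 (hsub v hv hv1 i)
  have h4 := spz_one.1 h3 g d hg h0
  exact (aeval_rep_eq_zero hg (hv i)).1 h4

variable {X : Set (ℙ k (Fin (r + 1) → k))} {n : ℕ} {h : MvPolynomial (Fin (r + 1)) k} {e : ℕ}
  {R : AddSubgroup (ℙ k (Fin (r + 1) → k) →₀ ℤ)}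

/-- **Families of large orbits.** -/
theorem main_families [IsAlgClosed k] (hn : 2 ≤ n)
    (hX : IsVariety k {z : Fin 1 → ℙ k (Fin (r + 1) → k) | z 0 ∈ X} n) (he : 0 < e)
    (hh : h.IsHomogeneous e) (hC : ∃ x ∈ X, aeval x.rep h ≠ 0)
    {N D f : ℕ} {Z : Set (Fin N → ℙ k (Fin (r + 1) → k))} (hZ : IsVariety k Z D)
    (hZX : ∀ z ∈ Z, ∀ i, z i ∈ X) (hf : n * (n - 1) * N < (n - 1) * D + f)
    (horb : ∀ z ∈ Z, ∃ (W : Set (Fin N → ℙ k (Fin (r + 1) → k))) (m : ℕ), IsVariety k W m ∧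
      f ≤ m ∧ (∀ w ∈ W, ∀ i, w i ∈ X) ∧ ∀ w ∈ W, cycle z - cycle w ∈ R) :
    GenMul R X {x | x ∈ X ∧ aeval x.rep h = 0} 1 N := by
  classical
  obtain ⟨K0, _, _, θ, hXθ⟩ := varData hX
  obtain ⟨K, _, _, ξ, hξ, hgen, htr, hZξ⟩ := hZ
  obtain ⟨b, hb⟩ := exists_chart hξ
  have hmem : ∀ (v : Fin N → Fin (r + 1) → k) (hv : ∀ i, v i ≠ 0), Spz k ξ v →
      (fun i => Projectivization.mk k (v i) (hv i)) ∈ Z := fun v hv hv1 =>
    (hZξ _).2 (hv1.rep hv)
  obtain ⟨m, rfl⟩ : ∃ m, n = m + 2 := ⟨n - 2, by omega⟩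
  have e1 : m + 2 - 1 = m + 1 := by omega
  rw [e1] at hf
  -- the number of coordinates
  have ha1 : (m + 1) * ((f + m) / (m + 1)) ≤ f + m := Nat.mul_div_le _ _
  have ha2 : f + m < (m + 1) * ((f + m) / (m + 1)) + (m + 1) := by
    have := Nat.lt_mul_div_succ (f + m) (Nat.succ_pos m)
    rw [Nat.succ_eq_add_one, Nat.mul_add, Nat.mul_one] at this
    exact this
  have key := family_core (a := (f + m) / (m + 1)) hn hXθ he hh hC (R := R) hb
    (hXθ.spz_of_forall hξ fun v hv hv1 i => hZX _ (hmem v hv hv1) i) (f := f) (by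
      rw [e1]; omega) (by
      rw [tt_univ hgen htr hb, Fintype.card_fin]
      by_contra hcon
      push Not at hcon
      have h1 := Nat.mul_le_mul_left (m + 1) hcon
      have h2 : (m + 1) * ((m + 2) * N) = (m + 2) * (m + 1) * N := by ring
      rw [h2, Nat.mul_add] at h1
      omega) (by
      intro v hv hv1
      obtain ⟨W, d, hW, hfm, hWX, hWR⟩ := horb _ (hmem v hv hv1)
      obtain ⟨K', _, _, ζ, hζ, hgen', htr', hWζ⟩ := hW
      obtain ⟨b', hb'⟩ := exists_chart hζ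
      have hmem' : ∀ (w : Fin N → Fin (r + 1) → k) (hw : ∀ i, w i ≠ 0), Spz k ζ w →
          (fun i => Projectivization.mk k (w i) (hw i)) ∈ W := fun w hw hw1 =>
        (hWζ _).2 (hw1.rep hw)
      refine ⟨K', inferInstance, inferInstance, ζ, b', hb',
        hXθ.spz_of_forall hζ fun w hw hw1 i => hWX _ (hmem' w hw hw1) i, ?_, ?_⟩
      · rw [tt_univ hgen' htr' hb']
        exact hfm
      · intro w hw hw1
        exact hWR _ (hmem' w hw hw1))
  rwa [Fintype.card_fin] at key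

/-- **Large fibres**, with weights. -/
theorem main_weights [IsAlgClosed k] (hn : 2 ≤ n)
    (hX : IsVariety k {z : Fin 1 → ℙ k (Fin (r + 1) → k) | z 0 ∈ X} n) (he : 0 < e)
    (hh : h.IsHomogeneous e) (hC : ∃ x ∈ X, aeval x.rep h ≠ 0)
    {N m a : ℕ} {W : Set (Fin N → ℙ k (Fin (r + 1) → k))} (hW : IsVariety k W m)
    (hWX : ∀ w ∈ W, ∀ i, w i ∈ X) {c : Fin N → ℤ}
    (hconst : ∀ w ∈ W, ∀ w' ∈ W,
      ∑ i, Finsupp.single (w i) (c i) - ∑ i, Finsupp.single (w' i) (c i) ∈ R)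
    (ha : (n - 1) * a < m + (n - 1))
    (havoid : ∀ w ∈ W, ∀ A : Finset (Fin N), A.card = a → ∃ i ∈ A, aeval (w i).rep h ≠ 0) :
    ∃ i, GenMul R X {x | x ∈ X ∧ aeval x.rep h = 0} (c i) (∑ i, (c i).natAbs) := by
  classical
  by_contra hinf
  push Not at hinf
  obtain ⟨K0, _, _, θ, hXθ⟩ := varData hX
  obtain ⟨K, _, _, ξ, hξ, hgen, htr, hWξ⟩ := hW
  obtain ⟨b, hb⟩ := exists_chart hξ
  have hmem : ∀ (v : Fin N → Fin (r + 1) → k) (hv : ∀ i, v i ≠ 0), Spz k ξ v →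
      (fun i => Projectivization.mk k (v i) (hv i)) ∈ W := fun v hv hv1 =>
    (hWξ _).2 (hv1.rep hv)
  obtain ⟨v, hv, hv1, A, hA, hvA⟩ := exists_on_hyp hn hXθ he hh hC hinf hb
    (hXθ.spz_of_forall hξ fun v hv hv1 i => hWX _ (hmem v hv hv1) i)
    (fun v v' hv hv' h1 h2 => hconst _ (hmem v hv h1) _ (hmem v' hv' h2)) (a := a) (by
      rw [tt_univ hgen htr hb]
      exact ha)
  obtain ⟨i, hi, hi'⟩ := havoid _ (hmem v hv hv1) A hA
  exact hi' ((aeval_rep_eq_zero hh (hv i)).2 (hvA i hi))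

/-- Zero-cycles of degree zero on an irreducible curve are equivalent to differences of sums of `g`
points. -/
theorem exists_genus [IsAlgClosed k] [CharZero k] {C : Set (ℙ k (Fin (r + 1) → k))}
    (hC : IsVariety k {z : Fin 1 → ℙ k (Fin (r + 1) → k) | z 0 ∈ C} 1) (hCX : C ⊆ X) :
    ∃ g : ℕ, ∀ Z : ℙ k (Fin (r + 1) → k) →₀ ℤ, (∀ p ∈ Z.support, p ∈ C) →
      (Z.sum fun _ a => a) = 0 → ∃ P Q : Multiset (ℙ k (Fin (r + 1) → k)),
        (∀ p ∈ P, p ∈ C) ∧ (∀ p ∈ Q, p ∈ C) ∧ P.card = g ∧ Q.card = g ∧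
        Z - (cyM P - cyM Q) ∈ ratEquiv X := by
  classical
  obtain ⟨g, c0, hc0, hg⟩ := riemann_cycles (X := X) hC hCX
  refine ⟨g, fun Z hZ h0 => ?_⟩
  obtain ⟨S, T, hS, hT, hcard, hZST⟩ := exists_diff hZ h0
  have hmem : ∀ {S : Multiset (ℙ k (Fin (r + 1) → k))}, (∀ p ∈ S, p ∈ C) →
      ∀ p ∈ S + Multiset.replicate g c0, p ∈ C := by
    intro S hS p hp
    rcases Multiset.mem_add.1 hp with hp | hp
    · exact hS p hp
    · rw [Multiset.eq_of_mem_replicate hp]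
      exact hc0
  obtain ⟨P, hP, hPC, hPR⟩ := hg (S + Multiset.replicate g c0) (hmem hS) (by
    rw [Multiset.card_add, Multiset.card_replicate]; omega)
  obtain ⟨Q, hQ, hQC, hQR⟩ := hg (T + Multiset.replicate g c0) (hmem hT) (by
    rw [Multiset.card_add, Multiset.card_replicate]; omega)
  refine ⟨P, Q, hPC, hQC, hP, hQ, ?_⟩
  have h1 := sub_mem hPR hQR
  convert h1 using 1
  rw [hZST]
  simp only [cyM_add, Multiset.card_add, Multiset.card_replicate, hcard]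
  abel

/-- The multiples by `c` of the zero-cycles of degree zero are a finite-dimensional group. -/
def FinMul (R : AddSubgroup (ℙ k (Fin (r + 1) → k) →₀ ℤ)) (X : Set (ℙ k (Fin (r + 1) → k)))
    (c : ℤ) (M : ℕ) : Prop :=
  ∀ Z : ℙ k (Fin (r + 1) → k) →₀ ℤ, (∀ p ∈ Z.support, p ∈ X) → (Z.sum fun _ a => a) = 0 →
    ∃ x y : Fin M → ℙ k (Fin (r + 1) → k), (∀ i, x i ∈ X) ∧ (∀ i, y i ∈ X) ∧
      c • Z - (cycle x - cycle y) ∈ R

/-- For surfaces: from generation modulo a curve to finite-dimensionality. -/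
theorem finMul_of_genMul [IsAlgClosed k] [CharZero k] {C : Set (ℙ k (Fin (r + 1) → k))}
    (hC : IsVariety k {z : Fin 1 → ℙ k (Fin (r + 1) → k) | z 0 ∈ C} 1) (hCX : C ⊆ X)
    (hR : ratEquiv X ≤ R) : ∃ g : ℕ, ∀ (c : ℤ) (M : ℕ), GenMul R X C c M →
      FinMul R X c (M + g) := by
  classical
  obtain ⟨g, hg⟩ := exists_genus (X := X) hC hCX
  refine ⟨g, fun c M hgen Z hZ h0 => ?_⟩
  obtain ⟨x, y, Z', hx, hy, hZ', h0', hR'⟩ := hgen Z hZ h0
  obtain ⟨P, Q, hP, hQ, hPc, hQc, hPQ⟩ := hg Z' hZ' h0'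
  have hpad : ∀ (x : Fin M → ℙ k (Fin (r + 1) → k)) (P : Multiset (ℙ k (Fin (r + 1) → k))),
      (∀ i, x i ∈ X) → (∀ p ∈ P, p ∈ C) → P.card = g →
      ∃ x' : Fin (M + g) → ℙ k (Fin (r + 1) → k), (∀ i, x' i ∈ X) ∧
        cycle x' = cycle x + cyM P := by
    intro x P hx hP hPc
    have hx1 : cycle x = cyM ((Finset.univ : Finset (Fin M)).val.map x) := by
      rw [cyM_map]
      rfl
    obtain ⟨x', hx'⟩ := exists_fin_map (n := M + g)
      ((Finset.univ : Finset (Fin M)).val.map x + P) (by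
        rw [Multiset.card_add, Multiset.card_map, hPc]
        change Finset.card _ + g = _
        rw [Finset.card_univ, Fintype.card_fin])
    refine ⟨x', fun i => ?_, ?_⟩
    · have h1 : x' i ∈ (Finset.univ : Finset (Fin M)).val.map x + P := by
        rw [hx']
        exact Multiset.mem_map_of_mem x' (Finset.mem_univ i)
      rcases Multiset.mem_add.1 h1 with h1 | h1
      · obtain ⟨j, -, h2⟩ := Multiset.mem_map.1 h1
        rw [← h2]
        exact hx j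
      · exact hCX (hP _ h1)
    · have h2 : cycle x' = cyM ((Finset.univ : Finset (Fin M)).val.map x + P) := by
        rw [hx', cyM_map]
        rfl
      rw [h2, cyM_add, ← hx1]
  obtain ⟨x', hxX', hx'⟩ := hpad x P hx hP hPc
  obtain ⟨y', hyX', hy'⟩ := hpad y Q hy hQ hQc
  refine ⟨x', y', hxX', hyX', ?_⟩
  have h1 := add_mem hR' (hR hPQ)
  convert h1 using 1
  rw [hx', hy']
  abel

end Pool.Agent.K7.H3.ZN
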