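import Pool.Agent.K7.H3.ZN.Indep

/-!
# Constant cycle families on varieties of dimension `n`, with weights
-/

set_option autoImplicit false

open MvPolynomial FF
open scoped LinearAlgebra.Projectivization

namespace Pool.Agent.K7.H3.ZN

open Pool.Agent.K7.H3.ZC

variable {k : Type} [Field k] {r : ℕ}

/-- The data of a variety of dimension `n`: a generic point. -/
structure VarData (k : Type) [Field k] {r : ℕ} (X : Set (ℙ k (Fin (r + 1) → k))) (K0 : Type)
    [Field K0] [Algebra k K0] (θ : Fin 1 → Fin (r + 1) → K0) (n : ℕ) : Prop where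
  gen : IntermediateField.adjoin k {x | ∃ i j l, x = θ i j / θ i l} = ⊤
  tr : Algebra.trdeg k K0 = n
  mem : ∀ x : ℙ k (Fin (r + 1) → k), x ∈ X ↔ Spz k θ (fun _ => x.rep)

variable {X : Set (ℙ k (Fin (r + 1) → k))} {K0 : Type} [Field K0] [Algebra k K0]
  {θ : Fin 1 → Fin (r + 1) → K0} {n : ℕ}

theorem VarData.mem_of_spz (hX : VarData k X K0 θ n) {K : Type} [Field K] [Algebra k K]
    {ι : Type} {ξ : ι → Fin (r + 1) → K} (hspz : ∀ i, Spz k θ (fun _ => ξ i))
    {v : ι → Fin (r + 1) → k} (hv : ∀ i, v i ≠ 0) (h : Spz k ξ v) (i : ι) :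
    Projectivization.mk k (v i) (hv i) ∈ X := by
  rw [hX.mem]
  have h1 := (hspz i).trans (h.single i)
  exact h1.rep (fun _ => hv i)

/-- The condition that the cycles, with weights `c`, of all specialisations of `ξ` over `k` have the
same class. -/
def ConstClass (R : AddSubgroup (ℙ k (Fin (r + 1) → k) →₀ ℤ)) {K : Type} [Field K] [Algebra k K]
    {ι : Type} [Fintype ι] (c : ι → ℤ) (ξ : ι → Fin (r + 1) → K) : Prop :=
  ∀ (v v' : ι → Fin (r + 1) → k) (hv : ∀ i, v i ≠ 0) (hv' : ∀ i, v' i ≠ 0),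
    Spz k ξ v → Spz k ξ v' →
      ∑ i, Finsupp.single (Projectivization.mk k (v i) (hv i)) (c i) -
        ∑ i, Finsupp.single (Projectivization.mk k (v' i) (hv' i)) (c i) ∈ R

/-- **Moving lemma** for constant cycle families of large dimension. -/
theorem move_core [IsAlgClosed k] (hn : 2 ≤ n) (hX : VarData k X K0 θ n)
    {h : MvPolynomial (Fin (r + 1)) k} {e : ℕ} (he : 0 < e) (hh : h.IsHomogeneous e)
    (hC : ∃ x ∈ X, aeval x.rep h ≠ 0) {ι : Type} [Fintype ι] [DecidableEq ι]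
    {K : Type} [Field K] [Algebra k K] {ξ : ι → Fin (r + 1) → K} {b : ι → Fin (r + 1)}
    (hb : ∀ i, ξ i (b i) ≠ 0) (hspz : ∀ i, Spz k θ (fun _ => ξ i))
    (hlarge : (n - 1) * ((Finset.univ : Finset ι).filter fun i => tt k b ξ {i} ≠ 0).card <
      tt k b ξ Finset.univ) {R : AddSubgroup (ℙ k (Fin (r + 1) → k) →₀ ℤ)} {c : ι → ℤ}
    (hconst : ConstClass R c ξ) :
    ∃ (I : Finset ι) (i0 : ι), i0 ∈ I ∧ ∀ a : ι → ℙ k (Fin (r + 1) → k), (∀ i ∈ I, a i ∈ X) →
      ∃ v : ι → ℙ k (Fin (r + 1) → k), (∀ i ∈ I, v i ∈ X) ∧ aeval (v i0).rep h = 0 ∧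
        ∑ i ∈ I, Finsupp.single (a i) (c i) - ∑ i ∈ I, Finsupp.single (v i) (c i) ∈ R := by
  have hξ : ∀ i, ξ i ≠ 0 := fun i h0 => hb i (congrFun h0 (b i))
  have hle : ∀ i, tt k b ξ {i} ≤ n := fun i => (rank_point hX.gen hX.tr (hspz i) (hb i)).1
  obtain ⟨I, hI, hIc⟩ := poly_lemma hn (tt_submod (k := k) b ξ) (tt_empty b ξ) hle hlarge
  -- the points with index in `I` are generic
  have hgenI : ∀ i ∈ I, Spz k (fun _ : Fin 1 => ξ i) θ := by
    intro i hi
    apply (rank_point hX.gen hX.tr (hspz i) (hb i)).2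
    have h1 := tt_submod (k := k) b ξ {i} (I.erase i)
    rw [← Finset.insert_eq, Finset.insert_erase hi] at h1
    have h2 := poly_le (tt_submod (k := k) b ξ) (tt_empty b ξ) hle (I.erase i)
    have h7 : n * (I.erase i).card + n = n * I.card := by
      have h6 : 0 < I.card := Finset.card_pos.2 ⟨i, hi⟩
      rw [Finset.card_erase_of_mem hi, ← Nat.mul_succ]
      congr 1
      omega
    omega
  -- the form `h` does not vanish in the generic points
  have hhI : ∀ i ∈ I, aeval (ξ i) h ≠ 0 := by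
    intro i hi h0
    obtain ⟨x, hxX, hx⟩ := hC
    apply hx
    have h1 := (hX.mem x).1 hxX
    exact spz_one.1 ((hgenI i hi).trans h1) h e hh h0
  -- a coordinate which is not algebraic over the others
  obtain ⟨i, hi, j, hij⟩ : ∃ i ∈ I, ∃ j, ¬ IsAlgebraic (Algebra.adjoin k (ES b ξ Iᶜ))
      (ξ i j / ξ i (b i)) := by
    by_contra hcon
    push Not at hcon
    have h1 : rk k (ES b ξ Finset.univ) ≤ rk k (ES b ξ Iᶜ) := by
      apply rk_le_of_isAlgebraic
      rintro x ⟨i, -, j, rfl⟩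
      by_cases hi : i ∈ I
      · exact hcon i hi j
      · exact isAlgebraic_mem ⟨i, Finset.mem_compl.2 hi, j, rfl⟩
    rw [← coe_tt, ← coe_tt] at h1
    have h2 : tt k b ξ Finset.univ ≤ tt k b ξ Iᶜ := by exact_mod_cast h1
    omega
  refine ⟨I, i, hi, fun a ha => ?_⟩
  obtain ⟨v, hv, hv1, hv2⟩ := extend_indep hξ (I := I) (b := b) hb hI.ge
    (fun i _ => hle i) (a := fun i => (a i).rep) (fun i _ => (a i).rep_nonzero) (by
      intro i hi
      exact (hgenI i hi).trans ((hX.mem (a i)).1 (ha i hi)))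
  obtain ⟨v', hv', hv1', hv2', hv3'⟩ := cut hξ hv hv1 (J := Iᶜ) he hh (hhI i hi)
    (fun j _ => hb j) hij
  have heqI : ∀ i ∈ I, Projectivization.mk k (v i) (hv i) = a i := by
    intro i hi
    obtain ⟨c, hc⟩ := hv2 i hi
    rw [← (a i).mk_rep]
    exact mk_eq_of_smul _ _ hc
  have heqJ : ∀ j ∈ Iᶜ, Projectivization.mk k (v' j) (hv' j) = Projectivization.mk k (v j) (hv j) := by
    intro j hj
    obtain ⟨c, hc⟩ := hv2' j hj
    exact mk_eq_of_smul _ _ hc
  refine ⟨fun i => Projectivization.mk k (v' i) (hv' i),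
    fun i _ => hX.mem_of_spz hspz hv' hv1' i, (aeval_rep_eq_zero hh (hv' i)).2 hv3', ?_⟩
  have h1 := hconst v v' hv hv' hv1 hv1'
  have e1 : ∑ i ∈ I, Finsupp.single (Projectivization.mk k (v i) (hv i)) (c i) =
      ∑ i ∈ I, Finsupp.single (a i) (c i) :=
    Finset.sum_congr rfl fun i hi => by rw [heqI i hi]
  have e2 : ∑ i ∈ Iᶜ, Finsupp.single (Projectivization.mk k (v' i) (hv' i)) (c i) =
      ∑ i ∈ Iᶜ, Finsupp.single (Projectivization.mk k (v i) (hv i)) (c i) :=
    Finset.sum_congr rfl fun i hi => by rw [heqJ i hi]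
  rw [← Finset.sum_add_sum_compl I, ← Finset.sum_add_sum_compl I, e1, e2,
    add_sub_add_right_eq_sub] at h1
  exact h1

/-- The multiple by `c` of each zero-cycle of degree zero on `X` is equivalent, modulo `R`, to the
difference of two sums of `M` points of `X` plus a zero-cycle of degree zero on `H`. -/
def GenMul (R : AddSubgroup (ℙ k (Fin (r + 1) → k) →₀ ℤ)) (X H : Set (ℙ k (Fin (r + 1) → k)))
    (c : ℤ) (M : ℕ) : Prop :=
  ∀ Z : ℙ k (Fin (r + 1) → k) →₀ ℤ, (∀ p ∈ Z.support, p ∈ X) → (Z.sum fun _ a => a) = 0 →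
    ∃ (x y : Fin M → ℙ k (Fin (r + 1) → k)) (Z' : ℙ k (Fin (r + 1) → k) →₀ ℤ),
      (∀ i, x i ∈ X) ∧ (∀ i, y i ∈ X) ∧ (∀ p ∈ Z'.support, p ∈ H) ∧
      (Z'.sum fun _ a => a) = 0 ∧ c • Z - (cycle x - cycle y) - Z' ∈ R

theorem cyM_replicate_eq {A : Type} (m : ℕ) (a : A) :
    cyM (Multiset.replicate m a) = Finsupp.single a (m : ℤ) := cyM_replicate m a

/-- A difference of weighted sums is a difference of effective cycles. -/
theorem exists_diff_rep {A ι : Type} [DecidableEq ι] {X : Set A} (c : ι → ℤ) (J : Finset ι)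
    {y y' : ι → A} (hy : ∀ i ∈ J, y i ∈ X) (hy' : ∀ i ∈ J, y' i ∈ X) :
    ∃ P Q : Multiset A, (∀ p ∈ P, p ∈ X) ∧ (∀ p ∈ Q, p ∈ X) ∧
      P.card = ∑ i ∈ J, (c i).natAbs ∧ Q.card = ∑ i ∈ J, (c i).natAbs ∧
      ∑ i ∈ J, Finsupp.single (y i) (c i) - ∑ i ∈ J, Finsupp.single (y' i) (c i) =
        cyM P - cyM Q := by
  induction J using Finset.induction_on with
  | empty => exact ⟨0, 0, by simp, by simp, by simp, by simp, by simp⟩
  | insert j J hj ih =>
    obtain ⟨P, Q, hP, hQ, hPc, hQc, h⟩ := ih (fun i hi => hy i (Finset.mem_insert_of_mem hi))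
      (fun i hi => hy' i (Finset.mem_insert_of_mem hi))
    have hyj := hy j (Finset.mem_insert_self j J)
    have hyj' := hy' j (Finset.mem_insert_self j J)
    have hmem : ∀ {S : Multiset A} {a : A} (m : ℕ), (∀ p ∈ S, p ∈ X) → a ∈ X →
        ∀ p ∈ Multiset.replicate m a + S, p ∈ X := by
      intro S a m hS ha p hp
      rcases Multiset.mem_add.1 hp with hp | hp
      · rw [Multiset.eq_of_mem_replicate hp]
        exact ha
      · exact hS p hp
    rcases le_total 0 (c j) with hc | hc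
    · refine ⟨Multiset.replicate (c j).natAbs (y j) + P, Multiset.replicate (c j).natAbs (y' j) + Q,
        hmem _ hP hyj, hmem _ hQ hyj', ?_, ?_, ?_⟩
      · rw [Multiset.card_add, Multiset.card_replicate, Finset.sum_insert hj, hPc]
      · rw [Multiset.card_add, Multiset.card_replicate, Finset.sum_insert hj, hQc]
      · rw [Finset.sum_insert hj, Finset.sum_insert hj, cyM_add, cyM_add, cyM_replicate,
          cyM_replicate, Int.natAbs_of_nonneg hc, add_sub_add_comm, h]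
        abel
    · refine ⟨Multiset.replicate (c j).natAbs (y' j) + P, Multiset.replicate (c j).natAbs (y j) + Q,
        hmem _ hP hyj', hmem _ hQ hyj, ?_, ?_, ?_⟩
      · rw [Multiset.card_add, Multiset.card_replicate, Finset.sum_insert hj, hPc]
      · rw [Multiset.card_add, Multiset.card_replicate, Finset.sum_insert hj, hQc]
      · have h1 : ((c j).natAbs : ℤ) = - c j := Int.ofNat_natAbs_of_nonpos hc
        rw [Finset.sum_insert hj, Finset.sum_insert hj, cyM_add, cyM_add, cyM_replicate,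
          cyM_replicate, h1, add_sub_add_comm, h, Finsupp.single_neg, Finsupp.single_neg]
        abel

/-- All points of an effective cycle can be moved to `H` at the expense of the other coordinates. -/
theorem move_all {A ι : Type} [DecidableEq ι] {X H : Set A} {R : AddSubgroup (A →₀ ℤ)}
    {c : ι → ℤ} {I : Finset ι} {i0 : ι} (hi0 : i0 ∈ I)
    (hI : ∀ a : ι → A, (∀ i ∈ I, a i ∈ X) → ∃ v : ι → A, (∀ i ∈ I, v i ∈ X) ∧ v i0 ∈ H ∧
      ∑ i ∈ I, Finsupp.single (a i) (c i) - ∑ i ∈ I, Finsupp.single (v i) (c i) ∈ R)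
    (S : Multiset A) (hS : ∀ p ∈ S, p ∈ X) (y : ι → A) (hy : ∀ i ∈ I.erase i0, y i ∈ X) :
    ∃ (y' : ι → A) (Z : Multiset A), (∀ i ∈ I.erase i0, y' i ∈ X) ∧ (∀ p ∈ Z, p ∈ H) ∧
      Z.card = S.card ∧
      c i0 • cyM S + ∑ i ∈ I.erase i0, Finsupp.single (y i) (c i) -
        (c i0 • cyM Z + ∑ i ∈ I.erase i0, Finsupp.single (y' i) (c i)) ∈ R := by
  induction S using Multiset.induction_on generalizing y with
  | empty =>
    refine ⟨y, 0, hy, by simp, rfl, ?_⟩
    rw [sub_self]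
    exact R.zero_mem
  | cons p S ih =>
    obtain ⟨v, hv, hv0, hvR⟩ := hI (fun i => if i = i0 then p else y i) (by
      intro i hi
      by_cases h : i = i0
      · rw [if_pos h]
        exact hS p (Multiset.mem_cons_self p S)
      · rw [if_neg h]
        exact hy i (Finset.mem_erase.2 ⟨h, hi⟩))
    obtain ⟨y', Z, hy', hZ, hZc, hZR⟩ := ih (fun q hq => hS q (Multiset.mem_cons_of_mem hq)) v
      (fun i hi => hv i (Finset.mem_of_mem_erase hi))
    refine ⟨y', v i0 ::ₘ Z, hy', ?_, by rw [Multiset.card_cons, Multiset.card_cons, hZc], ?_⟩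
    · intro q hq
      rcases Multiset.mem_cons.1 hq with rfl | hq
      · exact hv0
      · exact hZ q hq
    · have h1 : ∀ u : ι → A, ∑ i ∈ I, Finsupp.single (u i) (c i) =
          Finsupp.single (u i0) (c i0) + ∑ i ∈ I.erase i0, Finsupp.single (u i) (c i) :=
        fun u => (Finset.add_sum_erase I (fun i => Finsupp.single (u i) (c i)) hi0).symm
      rw [h1, h1, if_pos rfl] at hvR
      have h2 : ∑ i ∈ I.erase i0, Finsupp.single (if i = i0 then p else y i) (c i) =
          ∑ i ∈ I.erase i0, Finsupp.single (y i) (c i) :=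
        Finset.sum_congr rfl fun i hi => by rw [if_neg (Finset.ne_of_mem_erase hi)]
      rw [h2] at hvR
      have h3 := add_mem hvR hZR
      have h4 : ∀ q : A, Finsupp.single q (c i0) = c i0 • Finsupp.single q (1 : ℤ) := fun q => by
        rw [Finsupp.smul_single, smul_eq_mul, mul_one]
      convert h3 using 1
      rw [cyM_cons, cyM_cons, smul_add, smul_add, h4, h4]
      abel

theorem sum_zero_of_card {A : Type} {S T : Multiset A} (h : S.card = T.card) (c : ℤ) :
    ((c • (cyM S - cyM T)).sum fun _ a => a) = 0 := by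
  have h1 : ∀ Z : A →₀ ℤ, (Z.sum fun _ a => a) =
      Finsupp.liftAddHom (fun _ : A => AddMonoidHom.id ℤ) Z := fun Z => rfl
  have h2 : (cyM S).sum (fun _ a => a) = S.card := sum_cyM S
  have h3 : (cyM T).sum (fun _ a => a) = T.card := sum_cyM T
  rw [h1] at h2 h3 ⊢
  rw [map_zsmul, map_sub, h2, h3, h, sub_self, smul_zero]

theorem support_sub_cyM {A : Type} {X : Set A} {S T : Multiset A} (hS : ∀ p ∈ S, p ∈ X)
    (hT : ∀ p ∈ T, p ∈ X) (c : ℤ) : ∀ p ∈ (c • (cyM S - cyM T)).support, p ∈ X := by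
  classical
  intro p hp
  have h1 := Finsupp.support_smul hp
  rcases Finset.mem_union.1 (Finsupp.support_sub h1) with h2 | h2
  · rw [Finsupp.mem_support_iff, cyM_apply] at h2
    apply hS
    by_contra h3
    rw [Multiset.count_eq_zero_of_notMem h3] at h2
    exact h2 rfl
  · rw [Finsupp.mem_support_iff, cyM_apply] at h2
    apply hT
    by_contra h3
    rw [Multiset.count_eq_zero_of_notMem h3] at h2
    exact h2 rfl

/-- The conclusion from the moving lemma. -/
theorem genMul_of_move {H : Set (ℙ k (Fin (r + 1) → k))} {x0 : ℙ k (Fin (r + 1) → k)}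
    (hx0 : x0 ∈ X) {R : AddSubgroup (ℙ k (Fin (r + 1) → k) →₀ ℤ)} {ι : Type} [Fintype ι]
    {c : ι → ℤ} {I : Finset ι} {i0 : ι} (hi0 : i0 ∈ I)
    (hI : ∀ a : ι → ℙ k (Fin (r + 1) → k), (∀ i ∈ I, a i ∈ X) →
      ∃ v : ι → ℙ k (Fin (r + 1) → k), (∀ i ∈ I, v i ∈ X) ∧ v i0 ∈ H ∧
      ∑ i ∈ I, Finsupp.single (a i) (c i) - ∑ i ∈ I, Finsupp.single (v i) (c i) ∈ R) :
    GenMul R X H (c i0) (∑ i, (c i).natAbs) := by
  classical
  intro Z hZ h0
  obtain ⟨S, T, hS, hT, hcard, hZST⟩ := exists_diff hZ h0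
  obtain ⟨y, ZS, hy, hZS, hZSc, hZSR⟩ := move_all hi0 hI S hS (fun _ => x0) (fun _ _ => hx0)
  obtain ⟨y', ZT, hy', hZT, hZTc, hZTR⟩ := move_all hi0 hI T hT (fun _ => x0) (fun _ _ => hx0)
  obtain ⟨P, Q, hP, hQ, hPc, hQc, hPQ⟩ := exists_diff_rep c (I.erase i0) hy hy'
  have hle : ∑ i ∈ I.erase i0, (c i).natAbs ≤ ∑ i, (c i).natAbs :=
    Finset.sum_le_sum_of_subset (Finset.subset_univ _)
  set M := ∑ i, (c i).natAbs with hM
  set m := ∑ i ∈ I.erase i0, (c i).natAbs with hm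
  have hpad : ∀ P : Multiset (ℙ k (Fin (r + 1) → k)), (∀ p ∈ P, p ∈ X) → P.card = m →
      ∃ x : Fin M → ℙ k (Fin (r + 1) → k), (∀ i, x i ∈ X) ∧
        cycle x = cyM P + cyM (Multiset.replicate (M - m) x0) := by
    intro P hP hPc
    obtain ⟨x, hx⟩ := exists_fin_map (n := M) (P + Multiset.replicate (M - m) x0) (by
      rw [Multiset.card_add, Multiset.card_replicate, hPc]
      omega)
    refine ⟨x, fun i => ?_, ?_⟩
    · have h1 : x i ∈ P + Multiset.replicate (M - m) x0 := by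
        rw [hx]
        exact Multiset.mem_map_of_mem x (Finset.mem_univ i)
      rcases Multiset.mem_add.1 h1 with h1 | h1
      · exact hP _ h1
      · rw [Multiset.eq_of_mem_replicate h1]
        exact hx0
    · have h2 : cycle x = cyM (P + Multiset.replicate (M - m) x0) := by
        rw [hx, cyM_map]
        rfl
      rw [h2, cyM_add]
  obtain ⟨x, hxX, hx⟩ := hpad P hP hPc
  obtain ⟨x', hxX', hx'⟩ := hpad Q hQ hQc
  refine ⟨x, x', c i0 • (cyM ZS - cyM ZT), hxX, hxX', support_sub_cyM hZS hZT _,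
    sum_zero_of_card (by rw [hZSc, hZTc, hcard]) _, ?_⟩
  have h1 := sub_mem hZSR hZTR
  have h2 : c i0 • Z - (cycle x - cycle x') - c i0 • (cyM ZS - cyM ZT) =
      c i0 • cyM S - c i0 • cyM T - (cyM P - cyM Q) - (c i0 • cyM ZS - c i0 • cyM ZT) := by
    rw [hx, hx', hZST, smul_sub, smul_sub]
    abel
  rw [h2, ← hPQ]
  convert h1 using 1
  abel

variable {h : MvPolynomial (Fin (r + 1)) k} {e : ℕ}

/-- **The bound for the ranks** of constant cycle families. -/
theorem rank_bound [IsAlgClosed k] (hn : 2 ≤ n) (hX : VarData k X K0 θ n) (he : 0 < e)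
    (hh : h.IsHomogeneous e) (hC : ∃ x ∈ X, aeval x.rep h ≠ 0)
    {R : AddSubgroup (ℙ k (Fin (r + 1) → k) →₀ ℤ)} {ι : Type} [Fintype ι] [DecidableEq ι]
    {c : ι → ℤ} (hinf : ∀ i, ¬ GenMul R X {x | x ∈ X ∧ aeval x.rep h = 0} (c i)
      (∑ i, (c i).natAbs))
    {K : Type} [Field K] [Algebra k K] {ξ : ι → Fin (r + 1) → K} {b : ι → Fin (r + 1)}
    (hb : ∀ i, ξ i (b i) ≠ 0) (hspz : ∀ i, Spz k θ (fun _ => ξ i))
    (hconst : ConstClass R c ξ) (B : Finset ι) :
    tt k b ξ Finset.univ + (n - 1) * B.card ≤ tt k b ξ B + (n - 1) * Fintype.card ι := by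
  classical
  by_contra hcon
  push Not at hcon
  obtain ⟨κ, _, _, ρ, hρ, hρspz, hρB, hρtt⟩ := exists_fibre (k := k) hb B
  have hspz' : ∀ i, Spz k θ (fun _ => ρ i) := fun i => (hspz i).trans (hρspz.single i)
  have hcard : (n - 1) * ((Finset.univ : Finset ι).filter fun i => tt k b ρ {i} ≠ 0).card +
      (n - 1) * B.card ≤ (n - 1) * Fintype.card ι := by
    have h1 : Disjoint ((Finset.univ : Finset ι).filter fun i => tt k b ρ {i} ≠ 0) B := by
      rw [Finset.disjoint_left]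
      intro i hi hiB
      exact (Finset.mem_filter.1 hi).2 (hρB i hiB)
    rw [← Nat.mul_add, ← Finset.card_union_of_disjoint h1]
    exact Nat.mul_le_mul_left _ (Finset.card_le_univ _)
  obtain ⟨I, i0, hi0, hI⟩ := move_core hn hX he hh hC hρ hspz' (by omega) (R := R) (c := c)
    (fun v v' hv hv' h1 h2 => hconst v v' hv hv' (hρspz.trans h1) (hρspz.trans h2))
  obtain ⟨x0, hx0, -⟩ := hC
  refine hinf i0 (genMul_of_move hx0 hi0 fun a ha => ?_)
  obtain ⟨v, hv1, hv2, hv3⟩ := hI a ha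
  exact ⟨v, hv1, ⟨hv1 i0 hi0, hv2⟩, hv3⟩

/-- Constant cycle families meet the products of the hypersurface section. -/
theorem exists_on_hyp [IsAlgClosed k] (hn : 2 ≤ n) (hX : VarData k X K0 θ n) (he : 0 < e)
    (hh : h.IsHomogeneous e) (hC : ∃ x ∈ X, aeval x.rep h ≠ 0)
    {R : AddSubgroup (ℙ k (Fin (r + 1) → k) →₀ ℤ)} {ι : Type} [Fintype ι] [DecidableEq ι]
    {c : ι → ℤ} (hinf : ∀ i, ¬ GenMul R X {x | x ∈ X ∧ aeval x.rep h = 0} (c i)
      (∑ i, (c i).natAbs))
    {K : Type} [Field K] [Algebra k K] {ξ : ι → Fin (r + 1) → K} {b : ι → Fin (r + 1)}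
    (hb : ∀ i, ξ i (b i) ≠ 0) (hspz : ∀ i, Spz k θ (fun _ => ξ i))
    (hconst : ConstClass R c ξ) {a : ℕ} (ha : (n - 1) * a < tt k b ξ Finset.univ + (n - 1)) :
    ∃ v : ι → Fin (r + 1) → k, (∀ i, v i ≠ 0) ∧ Spz k ξ v ∧ ∃ A : Finset ι, A.card = a ∧
      ∀ i ∈ A, aeval (v i) h = 0 := by
  classical
  obtain ⟨A0, hA0, hA0'⟩ := exists_transversal_set (t := tt k b ξ) (f := a)
    (fun _ _ => tt_mono) (tt_submod (k := k) b ξ) (tt_empty b ξ) (fun B => by
      have h1 := rank_bound hn hX he hh hC hinf hb hspz hconst B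
      have h2 : B.card ≤ Fintype.card ι := Finset.card_le_univ B
      obtain ⟨x, hx⟩ := Nat.exists_eq_add_of_le h2
      rw [hx] at h1 ⊢
      obtain ⟨m, rfl⟩ : ∃ m, n = m + 2 := ⟨n - 2, by omega⟩
      have e1 : m + 2 - 1 = m + 1 := by omega
      rw [e1] at h1 ha
      by_contra hcon
      push Not at hcon
      have hxa : x + 1 ≤ a := by omega
      obtain ⟨y, rfl⟩ := Nat.exists_eq_add_of_le hxa
      have h3 : tt k b ξ B < y + 1 := by omega
      nlinarith)
  obtain ⟨A, hAA0, hA⟩ := Finset.exists_subset_card_eq hA0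
  obtain ⟨φ, -⟩ := exists_hom_ne_zero (k := k) (K := K) (S := ∅) Set.finite_empty
    (c := 1) one_ne_zero
  obtain ⟨v, hv, hv1, -, hv3⟩ := exists_put hb Set.finite_empty φ he hh (A := A) (by
    intro B hB
    have h1 := hA0' B (hB.trans hAA0)
    rw [Set.empty_union]
    have h2 : rk k (∅ : Set K) = 0 := Matroid.eRk_empty _
    rw [h2, add_zero, ← coe_tt]
    exact_mod_cast h1)
  exact ⟨v, hv, hv1, A, hA, hv3⟩

end Pool.Agent.K7.H3.ZN
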