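import Pool.Agent.K7.H3.ZN.Core
import Pool.Agent.K7.H3.ZC.Family

/-!
# Families of large orbits on varieties of dimension `n`
-/

set_option autoImplicit false

open MvPolynomial FF
open scoped LinearAlgebra.Projectivization

namespace Pool.Agent.K7.H3.ZN

open Pool.Agent.K7.H3.ZC (aff ES Spz tt coe_tt tt_empty tt_submod rank_point exists_hom_ne_zero
  exists_spz' exists_chart exists_hom chart_tt_eq mem_adjoin_ES ES_finite ES_union exists_put
  mk_eq_of_smul smul_of_ratio reduce_fix cyM cyM_map cyM_add cyM_zero exists_diff exists_fin_map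
  exists_finset_map cycle aeval_rep_eq_zero)

variable {k : Type} [Field k] {r : ℕ} {X : Set (ℙ k (Fin (r + 1) → k))} {K0 : Type} [Field K0]
  [Algebra k K0] {θ : Fin 1 → Fin (r + 1) → K0} {n : ℕ} {h : MvPolynomial (Fin (r + 1)) k} {e : ℕ}

/-- Points of a family with fixed coordinates in `L`, free coordinates in `S`, and all other
coordinates on the curve. -/
theorem exists_family_point [IsAlgClosed k] (hn : 2 ≤ n) (hX : VarData k X K0 θ n)
    (he : 0 < e) (hh : h.IsHomogeneous e)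
    {ι : Type} [Fintype ι] [DecidableEq ι]
    {K : Type} [Field K] [Algebra k K] {ξ : ι → Fin (r + 1) → K} {b : ι → Fin (r + 1)}
    (hb : ∀ i, ξ i (b i) ≠ 0) (hspz : ∀ i, Spz k θ (fun _ => ξ i)) :
    ∃ (L S : Finset ι) (u : ι → ℙ k (Fin (r + 1) → k)), Disjoint L S ∧
      tt k b ξ Finset.univ ≤ (n - 1) * Fintype.card ι + S.card ∧
      ∀ a : ι → ℙ k (Fin (r + 1) → k), (∀ i ∈ S, a i ∈ X) →
        ∃ (v : ι → Fin (r + 1) → k) (hv : ∀ i, v i ≠ 0), Spz k ξ v ∧
          (∀ i ∈ L, Projectivization.mk k (v i) (hv i) = u i) ∧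
          (∀ i ∈ S, Projectivization.mk k (v i) (hv i) = a i) ∧
          ∀ i, i ∉ L → i ∉ S → aeval (v i) h = 0 := by
  classical
  have hξ : ∀ i, ξ i ≠ 0 := fun i h0 => hb i (congrFun h0 (b i))
  have hle : ∀ i, tt k b ξ {i} ≤ n := fun i => (rank_point hX.gen hX.tr (hspz i) (hb i)).1
  obtain ⟨L, S, hLS, hS, hB⟩ := exists_fix_free (t := tt k b ξ) hn (tt_submod (k := k) b ξ)
    (tt_empty b ξ) hle
  have hcardLS : (L ∪ S).card = L.card + S.card := Finset.card_union_of_disjoint hLS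
  have hnS : n * S.card = (n - 1) * S.card + S.card := by
    rw [← Nat.succ_mul]
    congr 1
    omega
  -- the fixed point
  obtain ⟨φ0, -⟩ := exists_hom_ne_zero (k := k) (K := K) (S := ∅) Set.finite_empty
    (c := 1) one_ne_zero
  obtain ⟨w, hw, hwspz, -⟩ := exists_spz' φ0 hξ
  obtain ⟨cw, hcw⟩ := exists_chart hw
  have hgenS : ∀ i ∈ S, Spz k (fun _ : Fin 1 => ξ i) θ := by
    intro i hi
    apply (rank_point hX.gen hX.tr (hspz i) (hb i)).2
    have h1 := tt_submod (k := k) b ξ {i} (L ∪ S.erase i)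
    have h2 : {i} ∪ (L ∪ S.erase i) = L ∪ S := by
      ext x
      simp only [Finset.mem_union, Finset.mem_singleton, Finset.mem_erase]
      constructor
      · rintro (rfl | hx | hx)
        · exact Or.inr hi
        · exact Or.inl hx
        · exact Or.inr hx.2
      · rintro (hx | hx)
        · exact Or.inr (Or.inl hx)
        · by_cases hxi : x = i
          · exact Or.inl hxi
          · exact Or.inr (Or.inr ⟨hxi, hx⟩)
    rw [h2] at h1
    have h3 := tt_union_le hle L (S.erase i)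
    have h4 : 0 < S.card := Finset.card_pos.2 ⟨i, hi⟩
    have h6 : n * (S.erase i).card + n = n * S.card := by
      rw [Finset.card_erase_of_mem hi, ← Nat.mul_succ]
      congr 1
      omega
    have h5 := hB (L ∪ S) subset_rfl
    omega
  refine ⟨L, S, fun i => Projectivization.mk k (w i) (hw i), hLS, hS, fun a ha => ?_⟩
  -- the charts
  have hch : ∀ i, ∃ l, (i ∈ L → l = cw i) ∧ (i ∈ S → (a i).rep l ≠ 0) ∧ ξ i l ≠ 0 := by
    intro i
    by_cases hiL : i ∈ L
    · refine ⟨cw i, fun _ => rfl, fun hiS => absurd hiS (Finset.disjoint_left.1 hLS hiL), ?_⟩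
      exact hwspz.ne_zero (hcw i)
    · by_cases hiS : i ∈ S
      · obtain ⟨l, hl⟩ := Function.ne_iff.1 (a i).rep_nonzero
        refine ⟨l, fun h => absurd h hiL, fun _ => hl, ?_⟩
        have h1 : Spz k (fun _ : Fin 1 => ξ i) (fun _ => (a i).rep) :=
          (hgenS i hiS).trans ((hX.mem (a i)).1 (ha i hiS))
        exact h1.ne_zero (i := 0) hl
      · exact ⟨b i, fun h => absurd h hiL, fun h => absurd h hiS, hb i⟩
  choose c hcL hcS hcξ using hch
  have htt : ∀ B, tt k b ξ B = tt k c ξ B := fun B => chart_tt_eq hb hcξ B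
  -- the homomorphism given by the fixed point
  obtain ⟨φ, hφ⟩ := exists_hom (k := k) (K := K) (L := k) (R := k) (σ := ι × Fin (r + 1))
    (Algebra.ofId k K) (AlgHom.id k k) (η := aff cw ξ) (α := aff cw w) (fun G hG =>
      hwspz.aff hcw G hG) (Algebra.adjoin k (ES c ξ L)) (by
      intro x hx
      induction hx using Algebra.adjoin_induction with
      | mem x hx =>
        obtain ⟨i, hi, j, rfl⟩ := hx
        exact ⟨MvPolynomial.X (i, j), by rw [eval₂_X, hcL i hi]; rfl⟩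
      | algebraMap c => exact ⟨C c, by rw [eval₂_C]; rfl⟩
      | add x y _ _ hx hy =>
        obtain ⟨G, hG⟩ := hx
        obtain ⟨G', hG'⟩ := hy
        exact ⟨G + G', by rw [eval₂_add, hG, hG']⟩
      | mul x y _ _ hx hy =>
        obtain ⟨G, hG⟩ := hx
        obtain ⟨G', hG'⟩ := hy
        exact ⟨G * G', by rw [eval₂_mul, hG, hG']⟩)
  have hφj : ∀ i (hi : i ∈ L) j, φ ⟨ξ i j / ξ i (c i), mem_adjoin_ES hi j⟩ =
      w i j / w i (c i) := by
    intro i hi j
    rw [hφ _ (MvPolynomial.X (i, j)) (by rw [eval₂_X]; change _ = ξ i j / ξ i (c i); rw [hcL i hi]; rfl),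
      eval₂_X, hcL i hi]
    rfl
  -- the homomorphism with the given coordinates in `S`
  obtain ⟨ψ, hψ0, hψ⟩ := indep_points_rel c ξ (fun i j => (a i).rep j / (a i).rep (c i)) L φ (n := n) S
    (by
      rw [← htt, ← htt]
      have := hB (L ∪ S) subset_rfl
      omega) (fun i _ => by rw [← htt]; exact hle i) (by
      intro i hi g hg
      have h1 : Spz k (fun _ : Fin 1 => ξ i) (fun _ => (a i).rep) :=
        (hgenS i hi).trans ((hX.mem (a i)).1 (ha i hi))
      have h2 := h1.aff (b := fun _ => c i) (fun _ => hcS i hi)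
        (rename (fun j => ((0 : Fin 1), j)) g) (by
          rw [aeval_rename]
          exact hg)
      rw [aeval_rename] at h2
      exact h2)
  obtain ⟨v, hv, hv1, hv2, hv3⟩ := exists_put hcξ (ES_finite c ξ (L ∪ S)) ψ he hh
    (A := (L ∪ S)ᶜ) (by
      intro B hBA
      rw [← ES_union, ← coe_tt, ← coe_tt, ← htt, ← htt]
      have h1 := hB (L ∪ S ∪ B) Finset.subset_union_left
      have h2 : (L ∪ S ∪ B).card = L.card + S.card + B.card := by
        rw [Finset.card_union_of_disjoint, hcardLS]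
        rw [Finset.disjoint_left]
        intro x hx hxB
        exact (Finset.mem_compl.1 (hBA hxB)) hx
      have h3 := tt_union_le hle L S
      have h4 : B.card + tt k b ξ (L ∪ S) ≤ tt k b ξ (L ∪ S ∪ B) := by omega
      exact_mod_cast h4)
  refine ⟨v, hv, hv1, fun i hi => ?_, fun i hi => ?_, fun i hiL hiS => ?_⟩
  · refine mk_eq_of_smul _ _ (smul_of_ratio hv2 (l := c i) (hcξ i) (a := w i) fun j => ?_)
    refine ⟨⟨ξ i j / ξ i (c i), mem_adjoin_ES (Finset.mem_union_left S hi) j⟩, rfl, ?_⟩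
    rw [hψ0 _ ⟨ξ i j / ξ i (c i), mem_adjoin_ES hi j⟩ rfl]
    exact hφj i hi j
  · rw [← (a i).mk_rep]
    refine mk_eq_of_smul _ _ (smul_of_ratio hv2 (l := c i) (hcξ i) (a := (a i).rep) fun j => ?_)
    exact ⟨⟨ξ i j / ξ i (c i), mem_adjoin_ES (Finset.mem_union_right L hi) j⟩, rfl,
      hψ _ i hi j rfl⟩
  · refine hv3 i (Finset.mem_compl.2 fun h' => ?_)
    rcases Finset.mem_union.1 h' with h' | h'
    · exact hiL h'
    · exact hiS h'

/-- The conclusion from a reduction with a fixed cycle. -/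
theorem genMul_of_reduce {H : Set (ℙ k (Fin (r + 1) → k))} {x0 : ℙ k (Fin (r + 1) → k)}
    (hx0 : x0 ∈ X) {R : AddSubgroup (ℙ k (Fin (r + 1) → k) →₀ ℤ)} {s M : ℕ} (hsM : s ≤ M)
    {U : ℙ k (Fin (r + 1) → k) →₀ ℤ}
    (hred : ∀ N : ℕ, ∃ m y w1 w2 : ℕ, y < s ∧ ∀ S : Multiset (ℙ k (Fin (r + 1) → k)),
      (∀ x ∈ S, x ∈ X) → S.card = N →
      ∃ Y Z1 Z2 : Multiset (ℙ k (Fin (r + 1) → k)),
        (∀ x ∈ Y, x ∈ X) ∧ (∀ x ∈ Z1, x ∈ H) ∧ (∀ x ∈ Z2, x ∈ H) ∧
        Y.card = y ∧ Z1.card = w1 ∧ Z2.card = w2 ∧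
        cyM S + m • U + cyM Z2 - cyM Z1 - cyM Y ∈ R) : GenMul R X H 1 M := by
  classical
  intro Z hZ h0
  obtain ⟨S, T, hS, hT, hcard, hZST⟩ := exists_diff hZ h0
  obtain ⟨m, y, w1, w2, hy, hred⟩ := hred S.card
  obtain ⟨Y, Z1, Z2, hY, hZ1, hZ2, hYc, hZ1c, hZ2c, hR⟩ := hred S hS rfl
  obtain ⟨Y', Z1', Z2', hY', hZ1', hZ2', hYc', hZ1c', hZ2c', hR'⟩ := hred T hT hcard.symm
  have hpad : ∀ P : Multiset (ℙ k (Fin (r + 1) → k)), (∀ p ∈ P, p ∈ X) → P.card = y →
      ∃ x : Fin M → ℙ k (Fin (r + 1) → k), (∀ i, x i ∈ X) ∧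
        cycle x = cyM P + cyM (Multiset.replicate (M - y) x0) := by
    intro P hP hPc
    obtain ⟨x, hx⟩ := exists_fin_map (n := M) (P + Multiset.replicate (M - y) x0) (by
      rw [Multiset.card_add, Multiset.card_replicate, hPc]
      omega)
    refine ⟨x, fun i => ?_, ?_⟩
    · have h1 : x i ∈ P + Multiset.replicate (M - y) x0 := by
        rw [hx]
        exact Multiset.mem_map_of_mem x (Finset.mem_univ i)
      rcases Multiset.mem_add.1 h1 with h1 | h1
      · exact hP _ h1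
      · rw [Multiset.eq_of_mem_replicate h1]
        exact hx0
    · have h2 : cycle x = cyM (P + Multiset.replicate (M - y) x0) := by
        rw [hx, cyM_map]
        rfl
      rw [h2, cyM_add]
  obtain ⟨x, hxX, hx⟩ := hpad Y hY hYc
  obtain ⟨x', hxX', hx'⟩ := hpad Y' hY' hYc'
  have hmem : ∀ {P Q : Multiset (ℙ k (Fin (r + 1) → k))}, (∀ p ∈ P, p ∈ H) → (∀ p ∈ Q, p ∈ H) →
      ∀ p ∈ P + Q, p ∈ H := by
    intro P Q hP hQ p hp
    rcases Multiset.mem_add.1 hp with hp | hp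
    · exact hP p hp
    · exact hQ p hp
  refine ⟨x, x', (1 : ℤ) • (cyM (Z1 + Z2') - cyM (Z1' + Z2)), hxX, hxX',
    support_sub_cyM (hmem hZ1 hZ2') (hmem hZ1' hZ2) _, sum_zero_of_card (by
      rw [Multiset.card_add, Multiset.card_add, hZ1c, hZ2c', hZ1c', hZ2c]) _, ?_⟩
  have h1 := sub_mem hR hR'
  convert h1 using 1
  rw [hx, hx', hZST, one_smul, one_smul]
  simp only [cyM_add]
  abel

/-- **The main theorem on families**, in terms of generic points. -/
theorem family_core [IsAlgClosed k] (hn : 2 ≤ n) (hX : VarData k X K0 θ n) (he : 0 < e)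
    (hh : h.IsHomogeneous e) (hC : ∃ x ∈ X, aeval x.rep h ≠ 0)
    {R : AddSubgroup (ℙ k (Fin (r + 1) → k) →₀ ℤ)} {ι : Type} [Fintype ι] [DecidableEq ι]
    {K : Type} [Field K] [Algebra k K] {ξ : ι → Fin (r + 1) → K} {b : ι → Fin (r + 1)}
    (hb : ∀ i, ξ i (b i) ≠ 0) (hspz : ∀ i, Spz k θ (fun _ => ξ i)) {f a : ℕ}
    (ha : (n - 1) * a < f + (n - 1)) (hf : n * Fintype.card ι < tt k b ξ Finset.univ + a)
    (horb : ∀ (v : ι → Fin (r + 1) → k) (hv : ∀ i, v i ≠ 0), Spz k ξ v →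
      ∃ (K' : Type) (_ : Field K') (_ : Algebra k K') (ζ : ι → Fin (r + 1) → K')
        (b' : ι → Fin (r + 1)), (∀ i, ζ i (b' i) ≠ 0) ∧ (∀ i, Spz k θ (fun _ => ζ i)) ∧
        f ≤ tt k b' ζ Finset.univ ∧ ∀ (w : ι → Fin (r + 1) → k) (hw : ∀ i, w i ≠ 0), Spz k ζ w →
          ∑ i, Finsupp.single (Projectivization.mk k (v i) (hv i)) (1 : ℤ) -
            ∑ i, Finsupp.single (Projectivization.mk k (w i) (hw i)) (1 : ℤ) ∈ R) :
    GenMul R X {x | x ∈ X ∧ aeval x.rep h = 0} 1 (Fintype.card ι) := by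
  classical
  by_contra hinf0
  have hinf : ∀ i : ι, ¬ GenMul R X {x | x ∈ X ∧ aeval x.rep h = 0} ((fun _ : ι => (1 : ℤ)) i)
      (∑ i, ((fun _ : ι => (1 : ℤ)) i).natAbs) := by
    intro i
    have h1 : ∑ i, ((fun _ : ι => (1 : ℤ)) i).natAbs = Fintype.card ι := by simp
    rw [h1]
    exact hinf0
  apply hinf0
  obtain ⟨L, S, u, hLS, hScard, hpt⟩ := exists_family_point hn hX he hh hb hspz
  have hξ : ∀ i, ξ i ≠ 0 := fun i h0 => hb i (congrFun h0 (b i))
  have hcc : ∀ {K' : Type} [Field K'] [Algebra k K'] {ζ : ι → Fin (r + 1) → K'}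
      {D : ℙ k (Fin (r + 1) → k) →₀ ℤ}, (∀ (w : ι → Fin (r + 1) → k) (hw : ∀ i, w i ≠ 0),
        Spz k ζ w → D - ∑ i, Finsupp.single (Projectivization.mk k (w i) (hw i)) (1 : ℤ) ∈
          R) → ConstClass R (fun _ => 1) ζ := by
    intro K' _ _ ζ D hζ w w' hw hw' h1 h2
    have h3 := sub_mem (hζ w' hw' h2) (hζ w hw h1)
    rwa [sub_sub_sub_cancel_left] at h3
  have han : a ≤ Fintype.card ι := by
    obtain ⟨φ0, -⟩ := exists_hom_ne_zero (k := k) (K := K) (S := ∅) Set.finite_empty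
      (c := 1) one_ne_zero
    obtain ⟨w, hw, hwspz, -⟩ := exists_spz' φ0 hξ
    obtain ⟨K', _, _, ζ, b', hb', hζspz, hfζ, hζ⟩ := horb w hw hwspz
    obtain ⟨-, -, -, A, hA, -⟩ := exists_on_hyp hn hX he hh hC hinf hb' hζspz (hcc hζ) (a := a)
      (by omega)
    rw [← hA]
    exact Finset.card_le_univ A
  obtain ⟨x0, hx0, hx0'⟩ := id hC
  have hScard' : S.card ≤ Fintype.card ι := Finset.card_le_univ S
  have hnN : n * Fintype.card ι = (n - 1) * Fintype.card ι + Fintype.card ι := by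
    rw [← Nat.succ_mul]
    congr 1
    omega
  refine genMul_of_reduce hx0 (s := S.card) hScard' (U := ∑ i ∈ L, Finsupp.single (u i) (1 : ℤ))
    (reduce_fix (p := Fintype.card ι - a) (z1 := a) (z2 := ((L ∪ S)ᶜ).card) (by omega) ?_)
  intro a' ha' hacard
  have : Nonempty (ℙ k (Fin (r + 1) → k)) := ⟨x0⟩
  obtain ⟨a', rfl⟩ := exists_finset_map S a' hacard
  obtain ⟨v, hv, hvspz, hvL, hvS, hvC⟩ := hpt a' (fun i hi => ha' _ (Multiset.mem_map_of_mem a' hi))
  obtain ⟨K', _, _, ζ, b', hb', hζspz, hfζ, hζ⟩ := horb v hv hvspz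
  obtain ⟨w, hw, hwspz, A, hA, hwA⟩ := exists_on_hyp hn hX he hh hC hinf hb' hζspz
    (hcc hζ) (a := a) (by omega)
  have hvX : ∀ i, Projectivization.mk k (v i) (hv i) ∈ X := hX.mem_of_spz hspz hv hvspz
  have hwX : ∀ i, Projectivization.mk k (w i) (hw i) ∈ X := hX.mem_of_spz hζspz hw hwspz
  refine ⟨Aᶜ.val.map fun i => Projectivization.mk k (w i) (hw i),
    A.val.map fun i => Projectivization.mk k (w i) (hw i),
    ((L ∪ S)ᶜ).val.map fun i => Projectivization.mk k (v i) (hv i), ?_, ?_, ?_, ?_, ?_, ?_, ?_⟩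
  · intro x hx
    obtain ⟨i, -, rfl⟩ := Multiset.mem_map.1 hx
    exact hwX i
  · intro x hx
    obtain ⟨i, hi, rfl⟩ := Multiset.mem_map.1 hx
    exact ⟨hwX i, (aeval_rep_eq_zero hh (hw i)).2 (hwA i hi)⟩
  · intro x hx
    obtain ⟨i, hi, rfl⟩ := Multiset.mem_map.1 hx
    have hi' : i ∉ L ∪ S := Finset.mem_compl.1 hi
    rw [Finset.mem_union, not_or] at hi'
    exact ⟨hvX i, (aeval_rep_eq_zero hh (hv i)).2 (hvC i hi'.1 hi'.2)⟩
  · rw [Multiset.card_map]
    change (Aᶜ).card = _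
    rw [Finset.card_compl, hA]
  · rw [Multiset.card_map]
    exact hA
  · rw [Multiset.card_map]
    rfl
  · have h1 := hζ w hw hwspz
    rw [← Finset.sum_add_sum_compl (L ∪ S), ← Finset.sum_add_sum_compl A,
      Finset.sum_union hLS] at h1
    have e1 : ∑ i ∈ L, Finsupp.single (Projectivization.mk k (v i) (hv i)) (1 : ℤ) =
        ∑ i ∈ L, Finsupp.single (u i) (1 : ℤ) :=
      Finset.sum_congr rfl fun i hi => by rw [hvL i hi]
    have e2 : ∑ i ∈ S, Finsupp.single (Projectivization.mk k (v i) (hv i)) (1 : ℤ) =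
        ∑ i ∈ S, Finsupp.single (a' i) (1 : ℤ) :=
      Finset.sum_congr rfl fun i hi => by rw [hvS i hi]
    rw [e1, e2] at h1
    rw [cyM_map, cyM_map, cyM_map, cyM_map]
    convert h1 using 1
    abel

end Pool.Agent.K7.H3.ZN
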