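import Pool.Agent.K7.H3.ZN.Inter

/-!
# Final forms
-/

set_option autoImplicit false

open MvPolynomial FF
open scoped LinearAlgebra.Projectivization

namespace Pool.Agent.K7.H3.ZN

open Pool.Agent.K7.H3.ZC (IsVariety cycle ratEquiv IsFiniteDimensional exists_not_mem_curve)

variable {k : Type} [Field k] {r : ℕ} {X : Set (ℙ k (Fin (r + 1) → k))}
  {h : MvPolynomial (Fin (r + 1)) k} {e : ℕ}

/-- Surfaces: large fibres with weights, for relations which contain rational equivalence. -/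
theorem surface_weights [IsAlgClosed k] [CharZero k]
    (hX : IsVariety k {z : Fin 1 → ℙ k (Fin (r + 1) → k) | z 0 ∈ X} 2) (he : 0 < e)
    (hh : h.IsHomogeneous e)
    (hC : IsVariety k {z : Fin 1 → ℙ k (Fin (r + 1) → k) | z 0 ∈ X ∧ aeval (z 0).rep h = 0} 1)
    {R : AddSubgroup (ℙ k (Fin (r + 1) → k) →₀ ℤ)} (hR : ratEquiv X ≤ R)
    {N m : ℕ} {W : Set (Fin N → ℙ k (Fin (r + 1) → k))} (hW : IsVariety k W m)
    (hWX : ∀ w ∈ W, ∀ i, w i ∈ X) {c : Fin N → ℤ}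
    (hconst : ∀ w ∈ W, ∀ w' ∈ W,
      ∑ i, Finsupp.single (w i) (c i) - ∑ i, Finsupp.single (w' i) (c i) ∈ R)
    (havoid : ∀ w ∈ W, ∀ A : Finset (Fin N), A.card = m → ∃ i ∈ A, aeval (w i).rep h ≠ 0) :
    ∃ i M, FinMul R X (c i) M := by
  obtain ⟨i, hi⟩ := main_weights (n := 2) le_rfl hX he hh (exists_not_mem_curve hX hC) hW hWX
    hconst (a := m) (by omega) havoid
  obtain ⟨g, hg⟩ := finMul_of_genMul (X := X) (C := {x | x ∈ X ∧ aeval x.rep h = 0}) hC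
    (fun x hx => hx.1) hR
  exact ⟨i, _, hg _ _ hi⟩

/-- Surfaces: signed cycles. -/
theorem surface_signs [IsAlgClosed k] [CharZero k]
    (hX : IsVariety k {z : Fin 1 → ℙ k (Fin (r + 1) → k) | z 0 ∈ X} 2) (he : 0 < e)
    (hh : h.IsHomogeneous e)
    (hC : IsVariety k {z : Fin 1 → ℙ k (Fin (r + 1) → k) | z 0 ∈ X ∧ aeval (z 0).rep h = 0} 1)
    {N m : ℕ} {W : Set (Fin N → ℙ k (Fin (r + 1) → k))} (hW : IsVariety k W m)
    (hWX : ∀ w ∈ W, ∀ i, w i ∈ X) {c : Fin N → ℤ} (hc : ∀ i, c i = 1 ∨ c i = -1)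
    (hconst : ∀ w ∈ W, ∀ w' ∈ W,
      ∑ i, Finsupp.single (w i) (c i) - ∑ i, Finsupp.single (w' i) (c i) ∈ ratEquiv X)
    (havoid : ∀ w ∈ W, ∀ A : Finset (Fin N), A.card = m → ∃ i ∈ A, aeval (w i).rep h ≠ 0) :
    IsFiniteDimensional X := by
  obtain ⟨i, M, hM⟩ := surface_weights hX he hh hC le_rfl hW hWX hconst havoid
  refine ⟨M, fun Z hZ h0 => ?_⟩
  obtain ⟨x, y, hx, hy, h1⟩ := hM Z hZ h0
  rcases hc i with hi | hi
  · refine ⟨x, y, hx, hy, ?_⟩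
    rwa [hi, one_smul] at h1
  · refine ⟨y, x, hy, hx, ?_⟩
    rw [hi, neg_smul, one_smul] at h1
    have h2 := neg_mem h1
    convert h2 using 1
    abel

end Pool.Agent.K7.H3.ZN
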