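import Pool.Agent.K7.H3.ZC.Comb

/-! Lemmas on polymatroids whose singletons have rank at most `n`. -/

set_option autoImplicit false

namespace Pool.Agent.K7.H3.ZN

open Pool.Agent.K7.H3.ZC

variable {ι : Type} [DecidableEq ι] {t : Finset ι → ℕ} {n : ℕ}

theorem poly_le (hsub : ∀ A B, t (A ∩ B) + t (A ∪ B) ≤ t A + t B) (h0 : t ∅ = 0)
    (h2 : ∀ i, t {i} ≤ n) (A : Finset ι) : t A ≤ n * A.card := by
  induction A using Finset.induction_on with
  | empty => simp [h0]
  | insert a A ha ih =>
    have h1 := hsub {a} A
    rw [← Finset.insert_eq] at h1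
    have h3 := h2 a
    rw [Finset.card_insert_of_notMem ha, Nat.mul_succ]
    omega

theorem poly_ind (hn : 1 ≤ n) (hsub : ∀ A B, t (A ∩ B) + t (A ∪ B) ≤ t A + t B) (h0 : t ∅ = 0)
    (h2 : ∀ i, t {i} ≤ n) (J : Finset ι) :
    ∃ T ⊆ J, t T = n * T.card ∧
      t J ≤ (n - 1) * (J.filter fun i => t {i} ≠ 0).card + T.card := by
  induction J using Finset.induction_on with
  | empty => exact ⟨∅, subset_rfl, by simp [h0], by simp [h0]⟩
  | insert a J ha ih =>
    obtain ⟨T, hTJ, hT, hJ⟩ := ih
    have h1 := hsub {a} J
    rw [← Finset.insert_eq] at h1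
    by_cases hz : t {a} = 0
    · refine ⟨T, hTJ.trans (Finset.subset_insert a J), hT, ?_⟩
      rw [Finset.filter_insert, if_neg (by simpa using hz)]
      omega
    · have hcard : ((insert a J).filter fun i => t {i} ≠ 0).card =
          (J.filter fun i => t {i} ≠ 0).card + 1 := by
        rw [Finset.filter_insert, if_pos hz, Finset.card_insert_of_notMem]
        exact fun h => ha (Finset.mem_of_mem_filter a h)
      rw [hcard, Nat.mul_succ]
      by_cases h : t (insert a J) ≤ t J + (n - 1)
      · exact ⟨T, hTJ.trans (Finset.subset_insert a J), hT, by omega⟩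
      · push Not at h
        have haT : a ∉ T := fun h' => ha (hTJ h')
        have h3 := h2 a
        have h4 := hsub (insert a T) J
        have h5 : insert a T ∩ J = T := by
          ext x
          simp only [Finset.mem_inter, Finset.mem_insert]
          constructor
          · rintro ⟨rfl | hx, hxJ⟩
            · exact absurd hxJ ha
            · exact hx
          · intro hx
            exact ⟨Or.inr hx, hTJ hx⟩
        have h6 : insert a T ∪ J = insert a J := by
          ext x
          simp only [Finset.mem_union, Finset.mem_insert]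
          constructor
          · rintro ((rfl | hx) | hx)
            · exact Or.inl rfl
            · exact Or.inr (hTJ hx)
            · exact Or.inr hx
          · rintro (rfl | hx)
            · exact Or.inl (Or.inl rfl)
            · exact Or.inr hx
        rw [h5, h6] at h4
        have h7 := poly_le hsub h0 h2 (insert a T)
        rw [Finset.card_insert_of_notMem haT, Nat.mul_succ] at h7
        refine ⟨insert a T, Finset.insert_subset_insert a hTJ, ?_, ?_⟩
        · rw [Finset.card_insert_of_notMem haT, Nat.mul_succ]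
          omega
        · rw [Finset.card_insert_of_notMem haT]
          omega

theorem poly_lemma [Fintype ι] (hn : 2 ≤ n)
    (hsub : ∀ A B, t (A ∩ B) + t (A ∪ B) ≤ t A + t B) (h0 : t ∅ = 0) (h2 : ∀ i, t {i} ≤ n)
    (hlarge : (n - 1) * ((Finset.univ : Finset ι).filter fun i => t {i} ≠ 0).card <
      t Finset.univ) :
    ∃ I : Finset ι, t I = n * I.card ∧ t Iᶜ < t Finset.univ := by
  classical
  obtain ⟨I, hI, hmax⟩ := Finset.exists_max_image
    ((Finset.univ : Finset (Finset ι)).filter fun I => t I = n * I.card) Finset.card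
    ⟨∅, by simp [h0]⟩
  rw [Finset.mem_filter] at hI
  refine ⟨I, hI.2, ?_⟩
  obtain ⟨T, -, hT, hJ⟩ := poly_ind (by omega) hsub h0 h2 Iᶜ
  have h1 := hmax T (by rw [Finset.mem_filter]; exact ⟨Finset.mem_univ _, hT⟩)
  have h3 : I ⊆ (Finset.univ : Finset ι).filter fun i => t {i} ≠ 0 := by
    intro i hi
    rw [Finset.mem_filter]
    refine ⟨Finset.mem_univ _, fun h => ?_⟩
    have h4 := hsub {i} (I.erase i)
    rw [← Finset.insert_eq, Finset.insert_erase hi] at h4
    have h5 := poly_le hsub h0 h2 (I.erase i)
    have h6 : 0 < I.card := Finset.card_pos.2 ⟨i, hi⟩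
    have h7 : n * (I.erase i).card + n = n * I.card := by
      rw [Finset.card_erase_of_mem hi, ← Nat.mul_succ]
      congr 1
      omega
    omega
  have h4 : ((Iᶜ).filter fun i => t {i} ≠ 0) ∪ I ⊆
      (Finset.univ : Finset ι).filter fun i => t {i} ≠ 0 := by
    refine Finset.union_subset ?_ h3
    exact Finset.filter_subset_filter _ (Finset.subset_univ _)
  have h5 : Disjoint ((Iᶜ).filter fun i => t {i} ≠ 0) I := by
    rw [Finset.disjoint_left]
    intro i hi hi'
    exact (Finset.mem_compl.1 (Finset.mem_of_mem_filter i hi)) hi'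
  have h6 := Finset.card_le_card h4
  rw [Finset.card_union_of_disjoint h5] at h6
  have h7 := Nat.mul_le_mul_left (n - 1) h6
  rw [Nat.mul_add] at h7
  have h8 : I.card ≤ (n - 1) * I.card := Nat.le_mul_of_pos_left _ (by omega)
  omega

/-- The sets `L` and `S`. -/
theorem exists_fix_free [Fintype ι] (hn : 2 ≤ n)
    (hsub : ∀ A B, t (A ∩ B) + t (A ∪ B) ≤ t A + t B) (h0 : t ∅ = 0) (h2 : ∀ i, t {i} ≤ n) :
    ∃ L S : Finset ι, Disjoint L S ∧ t Finset.univ ≤ (n - 1) * Fintype.card ι + S.card ∧
      ∀ B, L ∪ S ⊆ B → B.card + (n - 1) * S.card + t L ≤ t B + L.card := by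
  obtain ⟨L, -, hL⟩ := Finset.exists_min_image (Finset.univ : Finset (Finset ι))
    (fun A => (t A : ℤ) - A.card) ⟨∅, Finset.mem_univ _⟩
  have hmin : ∀ A, A.card + t L ≤ t A + L.card := by
    intro A
    have := hL A (Finset.mem_univ _)
    omega
  have hsup_sub : ∀ A B, supRank t L (A ∩ B) + supRank t L (A ∪ B) ≤
      supRank t L A + supRank t L B := by
    intro A B
    obtain ⟨A', hA', h⟩ := exists_supRank (t := t) L A
    obtain ⟨B', hB', h'⟩ := exists_supRank (t := t) L B
    have h1 := supRank_le (t := t) (L := L) (A := A ∩ B) (B := A' ∩ B') (by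
      refine Finset.subset_inter ?_ ?_
      · exact (Finset.union_subset_union_right Finset.inter_subset_left).trans hA'
      · exact (Finset.union_subset_union_right Finset.inter_subset_right).trans hB')
    have h3 := supRank_le (t := t) (L := L) (A := A ∪ B) (B := A' ∪ B') (by
      intro x hx
      rcases Finset.mem_union.1 hx with hx | hx
      · exact Finset.mem_union_left _ (hA' (Finset.mem_union_left _ hx))
      · rcases Finset.mem_union.1 hx with hx | hx
        · exact Finset.mem_union_left _ (hA' (Finset.mem_union_right _ hx))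
        · exact Finset.mem_union_right _ (hB' (Finset.mem_union_right _ hx)))
    have h4 := hsub A' B'
    have h5 := Finset.card_union_add_card_inter A' B'
    have h6 := hmin A'
    have h7 := hmin B'
    have h8 := hmin (A' ∪ B')
    have h9 := hmin (A' ∩ B')
    omega
  have hsup0 : supRank t L ∅ = 0 := by
    have h1 := supRank_le (t := t) (L := L) (A := ∅) (B := L) (by simp)
    omega
  have hsup1 : ∀ i, supRank t L {i} ≤ n - 1 := by
    intro i
    have h1 := supRank_le (t := t) (L := L) (A := {i}) (B := L ∪ {i}) subset_rfl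
    have h3 := hsub L {i}
    have h4 := h2 i
    by_cases hi : i ∈ L
    · have h5 : L ∪ {i} = L := by
        rw [Finset.union_eq_left, Finset.singleton_subset_iff]
        exact hi
      rw [h5] at h1
      omega
    · have h5 : (L ∪ {i}).card = L.card + 1 := by
        rw [Finset.union_comm, ← Finset.insert_eq, Finset.card_insert_of_notMem hi]
      omega
  obtain ⟨S, -, hS1, hS2⟩ := poly_ind (by omega) hsup_sub hsup0 hsup1 Finset.univ
  have hS2' : supRank t L Finset.univ ≤ (n - 1 - 1) * Fintype.card ι + S.card := by
    refine hS2.trans (Nat.add_le_add_right (Nat.mul_le_mul_left _ ?_) _)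
    exact Finset.card_le_univ _
  refine ⟨L, S, ?_, ?_, fun B hB => ?_⟩
  · rw [Finset.disjoint_left]
    intro i hiL hiS
    obtain ⟨B', hB', h⟩ := exists_supRank (t := t) L (S.erase i)
    have h3 : L ∪ S ⊆ B' := by
      intro x hx
      rcases Finset.mem_union.1 hx with hx | hx
      · exact hB' (Finset.mem_union_left _ hx)
      · by_cases hxi : x = i
        · subst hxi
          exact hB' (Finset.mem_union_left _ hiL)
        · exact hB' (Finset.mem_union_right _ (Finset.mem_erase.2 ⟨hxi, hx⟩))
    have h4 := supRank_le (t := t) h3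
    have h5 := poly_le hsup_sub hsup0 hsup1 (S.erase i)
    have h7 : (n - 1) * (S.erase i).card + (n - 1) = (n - 1) * S.card := by
      have h6 : 0 < S.card := Finset.card_pos.2 ⟨i, hiS⟩
      rw [Finset.card_erase_of_mem hiS, ← Nat.mul_succ]
      congr 1
      omega
    omega
  · obtain ⟨B, hB, h⟩ := exists_supRank (t := t) L (Finset.univ : Finset ι)
    have h1 : B = Finset.univ := by
      rw [← Finset.univ_subset_iff]
      exact Finset.subset_union_right.trans hB
    subst h1
    have h3 := hmin ∅
    have h4 := hmin Finset.univ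
    have h5 : (n - 1) * Fintype.card ι = (n - 1 - 1) * Fintype.card ι + Fintype.card ι := by
      rw [← Nat.succ_mul]
      congr 1
      omega
    rw [Finset.card_univ] at *
    simp only [Finset.card_empty, h0] at h3
    omega
  · have h1 := supRank_le (t := t) hB
    have h3 := hmin B
    omega

end Pool.Agent.K7.H3.ZN
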