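import Pool.Agent.K7.H3.ZC.Core
import Pool.Agent.K7.H3.ZN.Poly

/-!
# Independent points of varieties of dimension `n`
-/

set_option autoImplicit false

open MvPolynomial

namespace Pool.Agent.K7.H3.ZN

open Pool.Agent.K7.H3.ZC

variable {k : Type} [Field k] {K : Type} [Field K] [Algebra k K] {ι : Type} {r : ℕ}

/-- **Independent generic points** over a given point. -/
theorem indep_points_rel [DecidableEq ι] (b : ι → Fin (r + 1)) (ξ : ι → Fin (r + 1) → K)
    (α : ι → Fin (r + 1) → k) (L : Finset ι) (φ : Algebra.adjoin k (ES b ξ L) →ₐ[k] k)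
    {n : ℕ} (I : Finset ι) (hI : tt k b ξ L + n * I.card ≤ tt k b ξ (L ∪ I))
    (h2 : ∀ i ∈ I, tt k b ξ {i} ≤ n)
    (hα : ∀ i ∈ I, ∀ g : MvPolynomial (Fin (r + 1)) k,
      aeval (fun j => ξ i j / ξ i (b i)) g = 0 → aeval (α i) g = 0) :
    ∃ ψ : Algebra.adjoin k (ES b ξ (L ∪ I)) →ₐ[k] k,
      (∀ (x : Algebra.adjoin k (ES b ξ (L ∪ I))) (y : Algebra.adjoin k (ES b ξ L)),
        (x : K) = y → ψ x = φ y) ∧
      ∀ x : Algebra.adjoin k (ES b ξ (L ∪ I)), ∀ i ∈ I, ∀ j,
        (x : K) = ξ i j / ξ i (b i) → ψ x = α i j := by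
  induction I using Finset.induction_on with
  | empty =>
    rw [Finset.union_empty]
    refine ⟨φ, fun x y hxy => by rw [Subtype.ext hxy], fun x i hi => ?_⟩
    exact absurd hi (Finset.notMem_empty i)
  | insert a S ha ih =>
    have hLS : L ∪ insert a S = insert a (L ∪ S) := by
      ext x
      simp only [Finset.mem_union, Finset.mem_insert]
      tauto
    have hunion : ES b ξ (L ∪ insert a S) = ES b ξ (L ∪ S) ∪ ES b ξ {a} := by
      rw [hLS, Finset.insert_eq, ES_union, Set.union_comm]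
    have h1 := tt_submod (k := k) b ξ {a} (L ∪ S)
    rw [← Finset.insert_eq, ← hLS] at h1
    rw [Finset.card_insert_of_notMem ha, Nat.mul_succ] at hI
    have h3 := h2 a (Finset.mem_insert_self a S)
    have hS2 : tt k b ξ (L ∪ S) ≤ tt k b ξ L + n * S.card := by
      have h4 : ∀ T ⊆ S, tt k b ξ (L ∪ T) ≤ tt k b ξ L + n * T.card := by
        intro T
        induction T using Finset.induction_on with
        | empty => intro _; simp
        | insert c T hc ihT =>
          intro hT
          have h5 := tt_submod (k := k) b ξ {c} (L ∪ T)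
          have h8 : L ∪ insert c T = insert c (L ∪ T) := by
            ext x
            simp only [Finset.mem_union, Finset.mem_insert]
            tauto
          rw [← Finset.insert_eq, ← h8] at h5
          have h6 := h2 c (Finset.mem_insert_of_mem (hT (Finset.mem_insert_self c T)))
          have h7 := ihT ((Finset.subset_insert c T).trans hT)
          rw [Finset.card_insert_of_notMem hc, Nat.mul_succ]
          omega
      exact h4 S subset_rfl
    obtain ⟨ψ, hψ0, hψ⟩ := ih (by omega) (fun i hi => h2 i (Finset.mem_insert_of_mem hi))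
      (fun i hi => hα i (Finset.mem_insert_of_mem hi))
    obtain ⟨Y, hY⟩ := (AlgebraicIndependent.matroid k K).exists_isBasis (ES b ξ {a})
    have hind : AlgebraicIndependent (Algebra.adjoin k (ES b ξ (L ∪ S)))
        (fun y : Y => (y : K)) := by
      refine indep_over (rk_ne_top (ES_finite b ξ (L ∪ S))) (rk_ne_top (ES_finite b ξ {a})) ?_ hY
      rw [← hunion, ← coe_tt, ← coe_tt, ← coe_tt]
      have : tt k b ξ (L ∪ S) + tt k b ξ {a} ≤ tt k b ξ (L ∪ insert a S) := by omega
      exact_mod_cast this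
    have hrange : Set.range (fun y : Y => (y : K)) = Y := Subtype.range_coe
    have hη : ∀ j, IsAlgebraic (Algebra.adjoin k (Set.range fun y : Y => (y : K)))
        (ξ a j / ξ a (b a)) := by
      intro j
      rw [hrange]
      apply mem_closure.1
      rw [hY.closure_eq_closure]
      exact (AlgebraicIndependent.matroid k K).mem_closure_of_mem
        ⟨a, Finset.mem_singleton_self a, j, rfl⟩
    have hkk : (algebraMap k k).comp (ψ : Algebra.adjoin k (ES b ξ (L ∪ S)) →+* k) = ψ := by
      ext x; rfl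
    obtain ⟨ψ', hψ'⟩ := exists_hom (σ := Fin (r + 1)) (Algebra.adjoin k (ES b ξ (L ∪ S))).val ψ
      (η := fun j => ξ a j / ξ a (b a)) (α := α a) (by
        intro G hG
        have h4 := linDisj ψ hind hη (G := G) hG
        have h5 := hα a (Finset.mem_insert_self a S) _ h4
        rw [aeval_def, eval₂_map, hkk] at h5
        exact h5) (Algebra.adjoin k (ES b ξ (L ∪ insert a S))) (by
        intro x hx
        induction hx using Algebra.adjoin_induction with
        | mem x hx =>
          rw [hunion] at hx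
          rcases hx with hx | ⟨i, hi, j, rfl⟩
          · exact ⟨C ⟨x, Algebra.subset_adjoin hx⟩, by rw [eval₂_C]; rfl⟩
          · rw [Finset.mem_singleton] at hi
            subst hi
            exact ⟨X j, by rw [eval₂_X]⟩
        | algebraMap c =>
          exact ⟨C (algebraMap k _ c), by rw [eval₂_C]; rfl⟩
        | add x y _ _ hx hy =>
          obtain ⟨G, hG⟩ := hx
          obtain ⟨G', hG'⟩ := hy
          exact ⟨G + G', by rw [eval₂_add, hG, hG']⟩
        | mul x y _ _ hx hy =>
          obtain ⟨G, hG⟩ := hx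
          obtain ⟨G', hG'⟩ := hy
          exact ⟨G * G', by rw [eval₂_mul, hG, hG']⟩)
    refine ⟨ψ', fun x y hxy => ?_, fun x i hi j hx => ?_⟩
    · have hy : (y : K) ∈ Algebra.adjoin k (ES b ξ (L ∪ S)) :=
        Algebra.adjoin_mono (ES_mono Finset.subset_union_left) y.2
      rw [hψ' x (C ⟨y, hy⟩) (by rw [eval₂_C, hxy]; rfl), eval₂_C]
      exact hψ0 _ y rfl
    · rcases Finset.mem_insert.1 hi with rfl | hi
      · rw [hψ' x (X j) (by rw [eval₂_X, hx]), eval₂_X]
      · rw [hψ' x (C ⟨ξ i j / ξ i (b i), mem_adjoin_ES (Finset.mem_union_right L hi) j⟩)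
          (by rw [eval₂_C, hx]; rfl), eval₂_C]
        exact hψ _ i hi j rfl

theorem tt_union_le [DecidableEq ι] {b : ι → Fin (r + 1)} {ξ : ι → Fin (r + 1) → K} {n : ℕ}
    (h2 : ∀ i, tt k b ξ {i} ≤ n) (L T : Finset ι) :
    tt k b ξ (L ∪ T) ≤ tt k b ξ L + n * T.card := by
  induction T using Finset.induction_on with
  | empty => simp
  | insert c T hc ihT =>
    have h5 := tt_submod (k := k) b ξ {c} (L ∪ T)
    have h8 : L ∪ insert c T = insert c (L ∪ T) := by
      ext x
      simp only [Finset.mem_union, Finset.mem_insert]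
      tauto
    rw [← Finset.insert_eq, ← h8] at h5
    have h6 := h2 c
    rw [Finset.card_insert_of_notMem hc, Nat.mul_succ]
    omega

/-- Points of a closed subset with given coordinates at independent places. -/
theorem extend_indep [IsAlgClosed k] [Fintype ι] [DecidableEq ι] {ξ : ι → Fin (r + 1) → K}
    (hξ : ∀ i, ξ i ≠ 0) {b : ι → Fin (r + 1)} {n : ℕ} {I : Finset ι} (hb : ∀ i, ξ i (b i) ≠ 0)
    (hI : n * I.card ≤ tt k b ξ I) (h2 : ∀ i ∈ I, tt k b ξ {i} ≤ n) {a : ι → Fin (r + 1) → k}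
    (ha : ∀ i ∈ I, a i ≠ 0) (hspz : ∀ i ∈ I, Spz k (fun _ : Fin 1 => ξ i) (fun _ => a i)) :
    ∃ v : ι → Fin (r + 1) → k, (∀ i, v i ≠ 0) ∧ Spz k ξ v ∧ ∀ i ∈ I, ∃ c : k, v i = c • a i := by
  have hch : ∀ i, ∃ l, (i ∈ I → a i l ≠ 0) ∧ ξ i l ≠ 0 := by
    intro i
    by_cases hi : i ∈ I
    · obtain ⟨l, hl⟩ := Function.ne_iff.1 (ha i hi)
      exact ⟨l, fun _ => hl, (hspz i hi).ne_zero (i := 0) hl⟩
    · exact ⟨b i, fun h => absurd h hi, hb i⟩
  choose c hc hcξ using hch
  obtain ⟨φ0, -⟩ := exists_hom_ne_zero (k := k) (K := K) (S := ES c ξ ∅) (ES_finite c ξ ∅)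
    (c := 1) one_ne_zero
  have h0 : tt k c ξ ∅ = 0 := tt_empty c ξ
  obtain ⟨ψ, -, hψ⟩ := indep_points_rel c ξ (fun i j => a i j / a i (c i)) ∅ φ0 (n := n) I
    (by
      rw [h0, Finset.empty_union, zero_add]
      exact hI.trans (chart_tt fun i _ => hcξ i))
    (fun i hi => (chart_tt fun i _ => hb i).trans (h2 i hi)) (by
      intro i hi g hg
      have h1 := (hspz i hi).aff (b := fun _ => c i) (fun _ => hc i hi)
        (rename (fun j => ((0 : Fin 1), j)) g) (by
          rw [aeval_rename]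
          exact hg)
      rw [aeval_rename] at h1
      exact h1)
  obtain ⟨v, hv, hv1, hv2⟩ := exists_spz' ψ hξ
  refine ⟨v, hv, hv1, fun i hi => ⟨_, smul_of_ratio hv2 (hcξ i) fun j => ?_⟩⟩
  exact ⟨⟨ξ i j / ξ i (c i), mem_adjoin_ES (Finset.mem_union_right ∅ hi) j⟩, rfl,
    hψ _ i hi j rfl⟩

end Pool.Agent.K7.H3.ZN
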